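import Mathlib

/-!
# Pullbacks of the deltoid along polynomials

Let `D, E` be complex polynomials and `A = D² E`. The curve `Z` in `ℂ³` (coordinates `x, z, w`) given by
`z ≠ 0`, `w² = E(x) (z² + 1)`, `w D(x) z = (z + 1) (z² + 1)`, `w (z + 1) = z D(x) E(x)`
is the normalisation of the curve `A(x) z² = (z + 1)² (z² + 1)`, if all zeros of `A` have odd order at
least three, `E` has simple zeros and `8, -1` are not critical values of `A`. As
`(z + 1)² (z² + 1) / z² = (z² + 2 / z) + (z⁻² + 2 z) + 2` is a linear function on the deltoid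
`(z² + 2 / z, z⁻² + 2 z)`, tangent to it at `z = -1`, the pair `x, z⁻² + 2 z` is injective on `Z`. It has
`3 deg A + deg E` common critical points.
-/

set_option autoImplicit false

open Polynomial

namespace Pool.Agent.Results.MP_b05b76_ag.BitangentPullbacks

/-- The conditions on `D` and `E`: `E` is not constant and has simple zeros, `D` and `E` have the same
zeros, and `A = D² E` does not take the values `8, -1` at a zero of its derivative. -/
def Good (D E : ℂ[X]) : Prop :=
  E.natDegree ≠ 0 ∧ (∀ a, E.eval a = 0 → E.derivative.eval a ≠ 0) ∧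
  (∀ a, D.eval a = 0 ↔ E.eval a = 0) ∧
  (∀ a, (D ^ 2 * E).eval a = 8 ∨ (D ^ 2 * E).eval a = -1 → (D ^ 2 * E).derivative.eval a ≠ 0)

/-- The conditions that define `Z`. -/
def OnCurve (D E : ℂ[X]) (x z w : ℂ) : Prop :=
  z ≠ 0 ∧ w ^ 2 = E.eval x * (z ^ 2 + 1) ∧ w * D.eval x * z = (z + 1) * (z ^ 2 + 1) ∧
    w * (z + 1) = z * (D.eval x * E.eval x)

/-- The set `Z` of the points `(x, z, w)`. -/
def curve (D E : ℂ[X]) : Set (ℂ × ℂ × ℂ) := {P | OnCurve D E P.1 P.2.1 P.2.2}

/-- The vector `v` is killed by the differentials at `P` of the three equations of `Z`. -/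
def Tangent (D E : ℂ[X]) (P v : ℂ × ℂ × ℂ) : Prop :=
  2 * P.2.2 * v.2.2 =
    E.derivative.eval P.1 * v.1 * (P.2.1 ^ 2 + 1) + E.eval P.1 * (2 * P.2.1 * v.2.1) ∧
  v.2.2 * D.eval P.1 * P.2.1 + P.2.2 * (D.derivative.eval P.1 * v.1) * P.2.1 +
      P.2.2 * D.eval P.1 * v.2.1 =
    v.2.1 * (P.2.1 ^ 2 + 1) + (P.2.1 + 1) * (2 * P.2.1 * v.2.1) ∧
  v.2.2 * (P.2.1 + 1) + P.2.2 * v.2.1 =
    v.2.1 * (D.eval P.1 * E.eval P.1) + P.2.1 * ((D * E).derivative.eval P.1 * v.1)

/-- The points of `Z` at which the differentials of both functions `x` and `z⁻² + 2 z` vanish on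
every tangent vector; the derivative of `z⁻² + 2 z` is `2 - 2 z⁻³`. -/
def critical (D E : ℂ[X]) : Set (ℂ × ℂ × ℂ) :=
  {P | P ∈ curve D E ∧ ∀ v, Tangent D E P v → v.1 = 0 ∧ (2 - 2 * (P.2.1 ^ 3)⁻¹) * v.2.1 = 0}

variable {D E : ℂ[X]} {x z w : ℂ}

theorem evalA : (D ^ 2 * E).eval x = D.eval x ^ 2 * E.eval x := by
  rw [eval_mul, eval_pow]

theorem evalA' : (D ^ 2 * E).derivative.eval x =
    2 * D.eval x * D.derivative.eval x * E.eval x + D.eval x ^ 2 * E.derivative.eval x := by
  rw [derivative_mul, derivative_pow]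
  simp only [eval_add, eval_mul, eval_pow, eval_C]
  norm_num

theorem evalDE' : (D * E).derivative.eval x =
    D.derivative.eval x * E.eval x + D.eval x * E.derivative.eval x := by
  rw [derivative_mul]
  simp only [eval_add, eval_mul]

theorem eq_x (h : OnCurve D E x z w) :
    (D ^ 2 * E).eval x * z ^ 2 = (z + 1) ^ 2 * (z ^ 2 + 1) := by
  obtain ⟨-, -, h2, h3⟩ := h
  rw [evalA]
  linear_combination (z + 1) * h2 - D.eval x * z * h3

theorem z_ne_zero {c : ℂ} (h : c * z ^ 2 = (z + 1) ^ 2 * (z ^ 2 + 1)) : z ≠ 0 := by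
  rintro rfl
  norm_num at h

/-- The part `z ≠ -1` is the plane curve `A(x) z² = (z + 1)² (z² + 1)`. -/
theorem chart_x (ht : z ≠ -1) : OnCurve D E x z w ↔
    (D ^ 2 * E).eval x * z ^ 2 = (z + 1) ^ 2 * (z ^ 2 + 1) ∧ w = z * (D * E).eval x / (z + 1) := by
  have h0 : z + 1 ≠ 0 := by
    intro h
    exact ht (eq_neg_of_add_eq_zero_left h)
  constructor
  · intro h
    refine ⟨eq_x h, ?_⟩
    rw [eq_div_iff h0, eval_mul]
    exact h.2.2.2
  · rintro ⟨h, hw⟩
    have hz := z_ne_zero h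
    have h3 : w * (z + 1) = z * (D.eval x * E.eval x) := by
      rw [hw, div_mul_cancel₀ _ h0, eval_mul]
    rw [evalA] at h
    refine ⟨hz, ?_, ?_, h3⟩
    · apply mul_right_cancel₀ (pow_ne_zero 2 h0)
      linear_combination (w * (z + 1) + z * (D.eval x * E.eval x)) * h3 + E.eval x * h
    · apply mul_right_cancel₀ h0
      linear_combination D.eval x * z * h3 + h

/-- On the part `z² ≠ -1` the last equation follows from the other two. -/
theorem two_equations (hz : z ≠ 0) (ht : z ^ 2 + 1 ≠ 0) : OnCurve D E x z w ↔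
    w ^ 2 = E.eval x * (z ^ 2 + 1) ∧ w * D.eval x * z = (z + 1) * (z ^ 2 + 1) := by
  constructor
  · intro h
    exact ⟨h.2.1, h.2.2.1⟩
  · rintro ⟨h1, h2⟩
    refine ⟨hz, h1, h2, ?_⟩
    apply mul_right_cancel₀ ht
    linear_combination D.eval x * z * h1 - w * h2

theorem vanish {c : ℂ} (h : c * z ^ 2 = (z + 1) ^ 2 * (z ^ 2 + 1)) (ht : z ^ 3 = 1) :
    c = 8 ∨ c = -1 := by
  have h1 : (z - 1) * (z ^ 2 + z + 1) = 0 := by linear_combination ht
  rcases mul_eq_zero.1 h1 with h2 | h2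
  · left
    rw [sub_eq_zero.1 h2] at h
    linear_combination h
  · right
    have hz := z_ne_zero h
    apply mul_right_cancel₀ (pow_ne_zero 2 hz)
    linear_combination h + (z ^ 2 + z + 1) * h2

/-- The plane curve is smooth outside `z = -1`: the partial derivatives have no common zero on it. -/
theorem smooth_x (hg : Good D E) (ht : z ≠ -1)
    (h : (D ^ 2 * E).eval x * z ^ 2 = (z + 1) ^ 2 * (z ^ 2 + 1)) :
    (D ^ 2 * E).derivative.eval x * z ^ 2 ≠ 0 ∨
      2 * (D ^ 2 * E).eval x * z - (2 * (z + 1) * (z ^ 2 + 1) + (z + 1) ^ 2 * (2 * z)) ≠ 0 := by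
  have h0 : z + 1 ≠ 0 := by
    intro h
    exact ht (eq_neg_of_add_eq_zero_left h)
  have hz := z_ne_zero h
  by_cases h1 : z ^ 3 = 1
  · left
    exact mul_ne_zero (hg.2.2.2 x (vanish h h1)) (pow_ne_zero 2 hz)
  · right
    intro h2
    have h3 : 2 * (z + 1) * (z ^ 3 - 1) = 0 := by
      linear_combination 2 * h - z * h2
    rcases mul_eq_zero.1 h3 with h4 | h4
    · exact mul_ne_zero (by norm_num) h0 h4
    · exact h1 (sub_eq_zero.1 h4)

theorem eq_zero_of_neg_one (hg : Good D E) (h : OnCurve D E x (-1) w) :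
    E.eval x = 0 ∧ D.eval x = 0 ∧ w = 0 := by
  have e1 := eq_x h
  have hx : E.eval x = 0 := by
    rw [evalA] at e1
    have e2 : D.eval x ^ 2 * E.eval x = 0 := by linear_combination e1
    rcases mul_eq_zero.1 e2 with h1 | h1
    · exact (hg.2.2.1 x).1 (pow_eq_zero_iff (by norm_num) |>.1 h1)
    · exact h1
  have a := h.2.1
  rw [hx, zero_mul] at a
  exact ⟨hx, (hg.2.2.1 x).2 hx, by simpa using a⟩

/-- The deltoid is injectively parametrised. -/
theorem deltoid {a b : ℂ} (ha : a ≠ 0) (hb : b ≠ 0) (h1 : a ^ 2 + 2 / a = b ^ 2 + 2 / b)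
    (h2 : (a ^ 2)⁻¹ + 2 * a = (b ^ 2)⁻¹ + 2 * b) : a = b := by
  by_contra hne
  have hd : a - b ≠ 0 := sub_ne_zero.2 hne
  have e1 : (a + b) * (a * b) = 2 := by
    field_simp at h1
    apply mul_left_cancel₀ hd
    linear_combination h1
  have e2 : a + b = 2 * (a * b) ^ 2 := by
    field_simp at h2
    apply mul_left_cancel₀ hd
    linear_combination -h2
  have e3 : (a * b) ^ 3 = 1 := by
    linear_combination (1 / 2) * e1 - (1 / 2) * (a * b) * e2
  have e4 : (a - b) ^ 2 = 0 := by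
    linear_combination (a + b + 2 * (a * b) ^ 2) * e2 + 4 * (a * b) * e3
  exact hd (by simpa using e4)

theorem first_coord {c : ℂ} (h : c * z ^ 2 = (z + 1) ^ 2 * (z ^ 2 + 1)) :
    z ^ 2 + 2 / z = c - 2 - ((z ^ 2)⁻¹ + 2 * z) := by
  have hz := z_ne_zero h
  field_simp
  linear_combination -h

theorem inj (hg : Good D E) :
    Set.InjOn (fun P : ℂ × ℂ × ℂ => (P.1, (P.2.1 ^ 2)⁻¹ + 2 * P.2.1)) (curve D E) := by
  rintro ⟨x, z, w⟩ h ⟨x', z', w'⟩ h' heq
  simp only [Prod.mk.injEq] at heq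
  obtain ⟨rfl, hv⟩ := heq
  have h : OnCurve D E x z w := h
  have h' : OnCurve D E x z' w' := h'
  have hzz : z = z' := by
    refine deltoid h.1 h'.1 ?_ hv
    rw [first_coord (eq_x h), first_coord (eq_x h'), hv]
  subst hzz
  have hww : w = w' := by
    by_cases h1 : z = -1
    · subst h1
      rw [(eq_zero_of_neg_one hg h).2.2, (eq_zero_of_neg_one hg h').2.2]
    · rw [((chart_x h1).1 h).2, ((chart_x h1).1 h').2]
  rw [hww]

/-- A tangent vector at a point with `z ≠ -1`. -/
noncomputable def vec (D E : ℂ[X]) (x z w : ℂ) : ℂ × ℂ × ℂ :=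
  (2 * (z + 1) * (z ^ 3 - 1), z ^ 3 * (D ^ 2 * E).derivative.eval x,
    (z ^ 3 * (D ^ 2 * E).derivative.eval x * (D.eval x * E.eval x) +
      z * ((D * E).derivative.eval x * (2 * (z + 1) * (z ^ 3 - 1))) -
      w * (z ^ 3 * (D ^ 2 * E).derivative.eval x)) / (z + 1))

theorem tangent_rel (h : OnCurve D E x z w) {v : ℂ × ℂ × ℂ}
    (hv : Tangent D E (x, z, w) v) :
    z ^ 3 * (D ^ 2 * E).derivative.eval x * v.1 = 2 * (z + 1) * (z ^ 3 - 1) * v.2.1 := by
  have hx := eq_x h
  obtain ⟨-, h1, h2, h3⟩ := h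
  obtain ⟨v1, v2, v3⟩ := hv
  have a2 := evalDE' (D := D) (E := E) (x := x)
  simp only at v2 v3
  rw [a2] at v3
  rw [evalA] at hx
  rw [evalA']
  linear_combination z * (z + 1) * v2 - z * (D.eval x * z) * v3 -
    z ^ 2 * D.derivative.eval x * v.1 * h3 - v.2.1 * h2 - v.2.1 * hx

theorem vec_tangent (ht : z ≠ -1) (h : OnCurve D E x z w) :
    Tangent D E (x, z, w) (vec D E x z w) := by
  have h0 : z + 1 ≠ 0 := by
    intro h
    exact ht (eq_neg_of_add_eq_zero_left h)
  have hx := eq_x h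
  obtain ⟨-, h1, h2, h3⟩ := h
  obtain ⟨c, hc⟩ : ∃ c, c = (z ^ 3 * (D ^ 2 * E).derivative.eval x * (D.eval x * E.eval x) +
      z * ((D * E).derivative.eval x * (2 * (z + 1) * (z ^ 3 - 1))) -
      w * (z ^ 3 * (D ^ 2 * E).derivative.eval x)) / (z + 1) := ⟨_, rfl⟩
  have hc' : c * (z + 1) = z ^ 3 * (D ^ 2 * E).derivative.eval x * (D.eval x * E.eval x) +
      z * ((D * E).derivative.eval x * (2 * (z + 1) * (z ^ 3 - 1))) -
      w * (z ^ 3 * (D ^ 2 * E).derivative.eval x) := by
    rw [hc, div_mul_cancel₀ _ h0]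
  have a1 := evalA' (D := D) (E := E) (x := x)
  have a2 := evalDE' (D := D) (E := E) (x := x)
  unfold vec Tangent
  simp only [← hc]
  rw [a1, a2] at hc'
  rw [a1, a2]
  rw [evalA] at hx
  refine ⟨?_, ?_, ?_⟩
  · apply mul_right_cancel₀ (pow_ne_zero 2 h0)
    linear_combination 2 * c * (z + 1) * h3 + 2 * (z * (D.eval x * E.eval x)) * hc' +
      2 * (z ^ 3 * (2 * D.eval x * D.derivative.eval x * E.eval x +
        D.eval x ^ 2 * E.derivative.eval x)) * w * h3 -
      2 * (z ^ 3 * (2 * D.eval x * D.derivative.eval x * E.eval x +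
        D.eval x ^ 2 * E.derivative.eval x)) * (z + 1) * h1 +
      E.derivative.eval x * (2 * (z + 1) * (z ^ 3 - 1)) * hx +
      2 * z ^ 2 * E.eval x * (2 * D.eval x * D.derivative.eval x * E.eval x +
        D.eval x ^ 2 * E.derivative.eval x) * hx
  · apply mul_right_cancel₀ h0
    linear_combination D.eval x * z * hc' +
      D.derivative.eval x * (2 * (z + 1) * (z ^ 3 - 1)) * z * h3 +
      z ^ 2 * (2 * D.eval x * D.derivative.eval x * E.eval x +
        D.eval x ^ 2 * E.derivative.eval x) * h2 +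
      z ^ 2 * (2 * D.eval x * D.derivative.eval x * E.eval x +
        D.eval x ^ 2 * E.derivative.eval x) * hx
  · linear_combination hc'

theorem tangent_neg_one (hg : Good D E) (hE : E.eval x = 0) (v : ℂ × ℂ × ℂ) :
    Tangent D E (x, -1, 0) v ↔ v.1 = 0 ∧ v.2.1 = 0 := by
  have hD : D.eval x = 0 := (hg.2.2.1 x).2 hE
  have hE' := hg.2.1 x hE
  unfold Tangent
  rw [evalDE']
  simp only [hE, hD]
  constructor
  · rintro ⟨h1, h2, -⟩
    constructor
    · have h3 : E.derivative.eval x * v.1 = 0 := by linear_combination (-1 / 2) * h1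
      exact (mul_eq_zero.1 h3).resolve_left hE'
    · linear_combination (-1 / 2) * h2
  · rintro ⟨h1, h2⟩
    rw [h1, h2]
    norm_num

/-- At every point of `Z` the tangent vectors form a line. -/
theorem tangent_line (hg : Good D E) {P : ℂ × ℂ × ℂ} (hP : P ∈ curve D E) :
    ∃ v₀ : ℂ × ℂ × ℂ, v₀ ≠ 0 ∧ ∀ v, Tangent D E P v ↔ ∃ c : ℂ, v = c • v₀ := by
  obtain ⟨x, z, w⟩ := P
  have h : OnCurve D E x z w := hP
  by_cases ht : z = -1
  · subst ht
    obtain ⟨hE, -, rfl⟩ := eq_zero_of_neg_one hg h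
    refine ⟨(0, 0, 1), by simp, fun v => ?_⟩
    rw [tangent_neg_one hg hE]
    constructor
    · rintro ⟨h1, h2⟩
      exact ⟨v.2.2, by ext <;> simp [h1, h2]⟩
    · rintro ⟨c, rfl⟩
      simp
  · have h0 : z + 1 ≠ 0 := by
      intro h
      exact ht (eq_neg_of_add_eq_zero_left h)
    have hv0 := vec_tangent ht h
    have hne : 2 * (z + 1) * (z ^ 3 - 1) ≠ 0 ∨ z ^ 3 * (D ^ 2 * E).derivative.eval x ≠ 0 := by
      by_cases h1 : z ^ 3 = 1
      · right
        exact mul_ne_zero (pow_ne_zero 3 h.1) (hg.2.2.2 x (vanish (eq_x h) h1))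
      · left
        exact mul_ne_zero (mul_ne_zero (by norm_num) h0) (sub_ne_zero.2 h1)
    refine ⟨vec D E x z w, ?_, fun v => ⟨fun hv => ?_, ?_⟩⟩
    · intro h1
      have h2 : 2 * (z + 1) * (z ^ 3 - 1) = 0 := congrArg Prod.fst h1
      have h3 : z ^ 3 * (D ^ 2 * E).derivative.eval x = 0 := congrArg (fun p => p.2.1) h1
      rcases hne with h | h
      · exact h h2
      · exact h h3
    · have hr := tangent_rel h hv
      obtain ⟨c, hc1, hc2⟩ : ∃ c : ℂ, v.1 = c * (2 * (z + 1) * (z ^ 3 - 1)) ∧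
          v.2.1 = c * (z ^ 3 * (D ^ 2 * E).derivative.eval x) := by
        rcases hne with h1 | h1
        · refine ⟨v.1 / (2 * (z + 1) * (z ^ 3 - 1)), (div_mul_cancel₀ _ h1).symm, ?_⟩
          rw [div_mul_eq_mul_div, eq_div_iff h1]
          linear_combination -hr
        · refine ⟨v.2.1 / (z ^ 3 * (D ^ 2 * E).derivative.eval x), ?_,
            (div_mul_cancel₀ _ h1).symm⟩
          rw [div_mul_eq_mul_div, eq_div_iff h1]
          linear_combination hr
      refine ⟨c, ?_⟩
      have h3 := hv.2.2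
      have h4 := hv0.2.2
      ext
      · exact hc1
      · exact hc2
      · show v.2.2 = c * (vec D E x z w).2.2
        apply mul_right_cancel₀ h0
        simp only [vec] at h4 ⊢
        rw [hc1, hc2] at h3
        linear_combination h3 - c * h4
    · rintro ⟨c, rfl⟩
      obtain ⟨h1, h2, h3⟩ := hv0
      refine ⟨?_, ?_, ?_⟩
      · simp only [Prod.smul_fst, Prod.smul_snd, smul_eq_mul]
        linear_combination c * h1
      · simp only [Prod.smul_fst, Prod.smul_snd, smul_eq_mul]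
        linear_combination c * h2
      · simp only [Prod.smul_fst, Prod.smul_snd, smul_eq_mul]
        linear_combination c * h3

theorem card_zeros {p : ℂ[X]} (hp : p.natDegree ≠ 0)
    (h : ∀ a, p.eval a = 0 → p.derivative.eval a ≠ 0) :
    {z : ℂ | p.eval z = 0}.ncard = p.natDegree := by
  have hp0 : p ≠ 0 := by
    rintro rfl
    exact hp natDegree_zero
  have hnd : p.roots.Nodup := by
    rw [Multiset.nodup_iff_count_le_one]
    intro a
    rw [count_roots]
    by_contra hlt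
    have h1 := (one_lt_rootMultiplicity_iff_isRoot hp0).1 (not_le.1 hlt)
    exact h a h1.1 h1.2
  have hset : {z : ℂ | p.eval z = 0} = (p.roots.toFinset : Set ℂ) := by
    ext z
    rw [Finset.mem_coe, Multiset.mem_toFinset, mem_roots hp0]
    rfl
  rw [hset, Set.ncard_coe_finset, Multiset.toFinset_card_of_nodup hnd]
  exact IsAlgClosed.card_roots_eq_natDegree

theorem ne_zero (hg : Good D E) : E ≠ 0 ∧ D ≠ 0 ∧ (D ^ 2 * E).natDegree ≠ 0 := by
  have hE0 : E ≠ 0 := by
    rintro rfl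
    exact hg.1 natDegree_zero
  have hD0 : D ≠ 0 := by
    rintro rfl
    apply hE0
    apply Polynomial.funext
    intro a
    rw [eval_zero]
    exact (hg.2.2.1 a).1 eval_zero
  refine ⟨hE0, hD0, ?_⟩
  rw [natDegree_mul (pow_ne_zero 2 hD0) hE0]
  have := hg.1
  omega

theorem card_level (hg : Good D E) {c : ℂ} (hc : c = 8 ∨ c = -1) :
    {x : ℂ | (D ^ 2 * E).eval x = c}.ncard = (D ^ 2 * E).natDegree := by
  have hset : {x : ℂ | (D ^ 2 * E).eval x = c} = {x : ℂ | (D ^ 2 * E - C c).eval x = 0} := by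
    ext z
    show (D ^ 2 * E).eval z = c ↔ (D ^ 2 * E - C c).eval z = 0
    rw [eval_sub, eval_C, sub_eq_zero]
  rw [hset, card_zeros, natDegree_sub_C]
  · rw [natDegree_sub_C]
    exact (ne_zero hg).2.2
  · intro a ha
    rw [eval_sub, eval_C, sub_eq_zero] at ha
    rw [derivative_sub, derivative_C, sub_zero]
    apply hg.2.2.2 a
    rw [ha]
    exact hc

theorem zero_iff (hg : Good D E) (z : ℂ) : (D ^ 2 * E).eval z = 0 ↔ E.eval z = 0 := by
  rw [evalA]
  constructor
  · intro h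
    rcases mul_eq_zero.1 h with h1 | h1
    · exact (hg.2.2.1 z).1 (pow_eq_zero_iff (by norm_num) |>.1 h1)
    · exact h1
  · intro h
    rw [h, mul_zero]

theorem card_zero (hg : Good D E) :
    {x : ℂ | (D ^ 2 * E).eval x = 0}.ncard = E.natDegree := by
  have hset : {x : ℂ | (D ^ 2 * E).eval x = 0} = {x : ℂ | E.eval x = 0} := by
    ext z
    exact zero_iff hg z
  rw [hset]
  exact card_zeros hg.1 hg.2.1

theorem chart_all (hg : Good D E) : OnCurve D E x z w ↔
    (D ^ 2 * E).eval x * z ^ 2 = (z + 1) ^ 2 * (z ^ 2 + 1) ∧ w = z * (D * E).eval x / (z + 1) := by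
  by_cases ht : z = -1
  · subst ht
    rw [neg_add_cancel, div_zero]
    constructor
    · intro h
      refine ⟨?_, (eq_zero_of_neg_one hg h).2.2⟩
      rw [eq_x h, neg_add_cancel]
    · rintro ⟨h, rfl⟩
      have h1 : (D ^ 2 * E).eval x = 0 := by linear_combination h
      have hE := (zero_iff hg x).1 h1
      have hD := (hg.2.2.1 x).2 hE
      refine ⟨by norm_num, ?_, ?_, ?_⟩
      · rw [hE]; norm_num
      · rw [hD]; norm_num
      · rw [hD]; norm_num
  · exact chart_x ht

theorem card_part (hg : Good D E) (S : Set ℂ) (c : ℂ)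
    (hS : ∀ z ∈ S, c * z ^ 2 = (z + 1) ^ 2 * (z ^ 2 + 1)) :
    {P | P ∈ curve D E ∧ P.2.1 ∈ S}.ncard =
      {x : ℂ | (D ^ 2 * E).eval x = c}.ncard * S.ncard := by
  have hset : {P | P ∈ curve D E ∧ P.2.1 ∈ S} =
      (fun q : ℂ × ℂ => (q.1, q.2, q.2 * (D * E).eval q.1 / (q.2 + 1))) ''
        ({x : ℂ | (D ^ 2 * E).eval x = c} ×ˢ S) := by
    ext ⟨x, z, w⟩
    constructor
    · rintro ⟨h, hz⟩
      have hz : z ∈ S := hz
      obtain ⟨e1, e2⟩ := (chart_all hg).1 (show OnCurve D E x z w from h)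
      refine ⟨(x, z), ⟨?_, hz⟩, ?_⟩
      · show (D ^ 2 * E).eval x = c
        apply mul_right_cancel₀ (pow_ne_zero 2 (z_ne_zero e1))
        rw [e1, hS z hz]
      · show (x, z, z * (D * E).eval x / (z + 1)) = (x, z, w)
        rw [e2]
    · rintro ⟨⟨a, b⟩, ⟨h1, h2⟩, he⟩
      simp only [Prod.mk.injEq] at he
      obtain ⟨rfl, rfl, rfl⟩ := he
      have h1 : (D ^ 2 * E).eval a = c := h1
      refine ⟨(chart_all hg).2 ⟨?_, rfl⟩, h2⟩
      rw [h1, hS b h2]
  rw [hset, Set.ncard_image_of_injective, Set.ncard_prod]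
  intro a b hab
  simp only [Prod.mk.injEq] at hab
  exact Prod.ext hab.1 hab.2.1

theorem card_omega : {z : ℂ | z ^ 2 + z + 1 = 0}.ncard = 2 := by
  have hd : (X ^ 2 + X + 1 : ℂ[X]).natDegree = 2 := by compute_degree!
  have hset : {z : ℂ | z ^ 2 + z + 1 = 0} = {z : ℂ | (X ^ 2 + X + 1 : ℂ[X]).eval z = 0} := by
    ext z
    simp
  rw [hset, card_zeros, hd]
  · rw [hd]
    norm_num
  · intro a ha
    have ha' : a ^ 2 + a + 1 = 0 := by simpa using ha
    have hd' : (X ^ 2 + X + 1 : ℂ[X]).derivative.eval a = 2 * a + 1 := by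
      simp [one_add_one_eq_two]
    rw [hd']
    intro h
    have : (3 : ℂ) = 0 := by linear_combination 4 * ha' - (2 * a + 1) * h
    norm_num at this

theorem critical_eq (hg : Good D E) : critical D E =
    ({P | P ∈ curve D E ∧ P.2.1 ∈ ({1} : Set ℂ)} ∪
      {P | P ∈ curve D E ∧ P.2.1 ∈ {z : ℂ | z ^ 2 + z + 1 = 0}}) ∪
      {P | P ∈ curve D E ∧ P.2.1 ∈ ({-1} : Set ℂ)} := by
  ext ⟨x, z, w⟩
  constructor
  · rintro ⟨h, hc⟩
    have h : OnCurve D E x z w := h
    by_cases ht : z = -1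
    · exact Or.inr ⟨h, ht⟩
    · left
      have h0 : z + 1 ≠ 0 := by
        intro h
        exact ht (eq_neg_of_add_eq_zero_left h)
      have h1 : 2 * (z + 1) * (z ^ 3 - 1) = 0 := (hc _ (vec_tangent ht h)).1
      have h2 : z ^ 3 - 1 = 0 :=
        (mul_eq_zero.1 h1).resolve_left (mul_ne_zero (by norm_num) h0)
      have h3 : (z - 1) * (z ^ 2 + z + 1) = 0 := by linear_combination h2
      rcases mul_eq_zero.1 h3 with h4 | h4
      · exact Or.inl ⟨h, sub_eq_zero.1 h4⟩
      · exact Or.inr ⟨h, h4⟩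
  · have key : ∀ h : OnCurve D E x z w, z ^ 3 = 1 → (x, z, w) ∈ critical D E := by
      intro h h3
      refine ⟨h, fun v hv => ?_⟩
      have hr := tangent_rel h hv
      have hx := hg.2.2.2 x (vanish (eq_x h) h3)
      constructor
      · have h1 : (z ^ 3 * (D ^ 2 * E).derivative.eval x) * v.1 = 0 := by
          rw [hr, h3]
          ring
        exact (mul_eq_zero.1 h1).resolve_left (mul_ne_zero (pow_ne_zero 3 h.1) hx)
      · show (2 - 2 * (z ^ 3)⁻¹) * v.2.1 = 0
        rw [h3]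
        norm_num
    rintro ((⟨h, ht⟩ | ⟨h, ht⟩) | ⟨h, ht⟩)
    · have ht : z = 1 := ht
      exact key h (by rw [ht, one_pow])
    · have ht : z ^ 2 + z + 1 = 0 := ht
      exact key h (by linear_combination (z - 1) * ht)
    · have ht : z = -1 := ht
      subst ht
      have h : OnCurve D E x (-1) w := h
      refine ⟨h, fun v hv => ?_⟩
      obtain ⟨hE, -, rfl⟩ := eq_zero_of_neg_one hg h
      obtain ⟨h1, h2⟩ := (tangent_neg_one hg hE v).1 hv
      rw [h1, h2]
      simp

theorem critical_card (hg : Good D E) :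
    (critical D E).ncard = 3 * (D ^ 2 * E).natDegree + E.natDegree := by
  have c1 : {P | P ∈ curve D E ∧ P.2.1 ∈ ({1} : Set ℂ)}.ncard = (D ^ 2 * E).natDegree := by
    rw [card_part hg {1} 8, card_level hg (Or.inl rfl), Set.ncard_singleton, mul_one]
    rintro z rfl
    norm_num
  have c2 : {P | P ∈ curve D E ∧ P.2.1 ∈ {z : ℂ | z ^ 2 + z + 1 = 0}}.ncard =
      (D ^ 2 * E).natDegree * 2 := by
    rw [card_part hg _ (-1), card_level hg (Or.inr rfl), card_omega]
    intro z hz
    have hz : z ^ 2 + z + 1 = 0 := hz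
    linear_combination -(z ^ 2 + z + 1) * hz
  have c3 : {P | P ∈ curve D E ∧ P.2.1 ∈ ({-1} : Set ℂ)}.ncard = E.natDegree := by
    rw [card_part hg {-1} 0, card_zero hg, Set.ncard_singleton, mul_one]
    rintro z rfl
    norm_num
  have hm := (ne_zero hg).2.2
  have f1 := Set.finite_of_ncard_ne_zero (c1.trans_ne hm)
  have f2 := Set.finite_of_ncard_ne_zero (c2.trans_ne (by omega))
  have f3 := Set.finite_of_ncard_ne_zero (c3.trans_ne hg.1)
  rw [critical_eq hg, Set.ncard_union_eq _ (f1.union f2) f3, Set.ncard_union_eq _ f1 f2, c1, c2, c3]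
  · ring
  · rw [Set.disjoint_left]
    rintro P ⟨-, h⟩ ⟨-, h'⟩
    have h : P.2.1 = 1 := h
    have h' : P.2.1 ^ 2 + P.2.1 + 1 = 0 := h'
    rw [h] at h'
    norm_num at h'
  · rw [Set.disjoint_left]
    rintro P h ⟨-, h'⟩
    have h' : P.2.1 = -1 := h'
    rcases h with ⟨-, h⟩ | ⟨-, h⟩
    · have h : P.2.1 = 1 := h
      rw [h] at h'
      norm_num at h'
    · have h : P.2.1 ^ 2 + P.2.1 + 1 = 0 := h
      rw [h'] at h
      norm_num at h

/-- Over `x` there are four points of `Z`, except that there are three if `A(x) = 0, 8` and two if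
`A(x) = -1`. -/
theorem fibre_x (hg : Good D E) (x : ℂ) :
    {P | P ∈ curve D E ∧ P.1 = x}.ncard =
      if (D ^ 2 * E).eval x = 0 ∨ (D ^ 2 * E).eval x = 8 then 3
      else if (D ^ 2 * E).eval x = -1 then 2 else 4 := by
  obtain ⟨c, hc⟩ : ∃ c, c = (D ^ 2 * E).eval x := ⟨_, rfl⟩
  have hset : {P | P ∈ curve D E ∧ P.1 = x} =
      (fun z : ℂ => (x, z, z * (D * E).eval x / (z + 1))) ''
        {z : ℂ | c * z ^ 2 = (z + 1) ^ 2 * (z ^ 2 + 1)} := by
    ext ⟨y, z, w⟩
    constructor
    · rintro ⟨h, hy⟩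
      have hy : y = x := hy
      subst hy
      obtain ⟨e1, e2⟩ := (chart_all hg).1 (show OnCurve D E y z w from h)
      exact ⟨z, by rw [hc]; exact e1, by rw [e2]⟩
    · rintro ⟨b, hb, he⟩
      simp only [Prod.mk.injEq] at he
      obtain ⟨rfl, rfl, rfl⟩ := he
      refine ⟨(chart_all hg).2 ⟨?_, rfl⟩, rfl⟩
      rw [← hc]
      exact hb
  have hinj : Function.Injective (fun z : ℂ => (x, z, z * (D * E).eval x / (z + 1))) := by
    intro a b hab
    exact congrArg (fun p : ℂ × ℂ × ℂ => p.2.1) hab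
  rw [hset, Set.ncard_image_of_injective _ hinj, ← hc]
  by_cases h0 : c = 0
  · rw [if_pos (Or.inl h0), h0]
    have hd : ((X + 1) * (X ^ 2 + 1) : ℂ[X]).natDegree = 3 := by compute_degree!
    have hs : {z : ℂ | 0 * z ^ 2 = (z + 1) ^ 2 * (z ^ 2 + 1)} =
        {z : ℂ | ((X + 1) * (X ^ 2 + 1) : ℂ[X]).eval z = 0} := by
      ext z
      show 0 * z ^ 2 = (z + 1) ^ 2 * (z ^ 2 + 1) ↔ ((X + 1) * (X ^ 2 + 1) : ℂ[X]).eval z = 0
      simp only [eval_mul, eval_add, eval_pow, eval_X, eval_one, zero_mul]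
      constructor
      · intro h
        rcases mul_eq_zero.1 h.symm with h1 | h1
        · rw [pow_eq_zero_iff (by norm_num) |>.1 h1, zero_mul]
        · rw [h1, mul_zero]
      · intro h
        rw [pow_two (z + 1), mul_assoc, h, mul_zero]
    rw [hs, card_zeros, hd]
    · rw [hd]
      norm_num
    · intro a ha
      simp only [eval_mul, eval_add, eval_pow, eval_X, eval_one] at ha
      have hd' : ((X + 1) * (X ^ 2 + 1) : ℂ[X]).derivative.eval a =
          (a ^ 2 + 1) + (a + 1) * (2 * a) := by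
        simp [one_add_one_eq_two]
      rw [hd']
      intro h
      rcases mul_eq_zero.1 ha with h1 | h1
      · have : a = -1 := eq_neg_of_add_eq_zero_left h1
        rw [this] at h
        norm_num at h
      · have h2 : (2 : ℂ) = 0 := by linear_combination h1 - (a + 1) / 2 * h + 3 * (a + 1) / 2 * h1
        norm_num at h2
  · by_cases h8 : c = 8
    · rw [if_pos (Or.inr h8), h8]
      have hd : ((X - 1) * (X ^ 2 + 4 * X + 1) : ℂ[X]).natDegree = 3 := by compute_degree!
      have hs : {z : ℂ | 8 * z ^ 2 = (z + 1) ^ 2 * (z ^ 2 + 1)} =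
          {z : ℂ | ((X - 1) * (X ^ 2 + 4 * X + 1) : ℂ[X]).eval z = 0} := by
        ext z
        show 8 * z ^ 2 = (z + 1) ^ 2 * (z ^ 2 + 1) ↔
          ((X - 1) * (X ^ 2 + 4 * X + 1) : ℂ[X]).eval z = 0
        have he : ((X - 1) * (X ^ 2 + 4 * X + 1) : ℂ[X]).eval z =
            (z - 1) * (z ^ 2 + 4 * z + 1) := by simp
        rw [he]
        constructor
        · intro h
          have h1 : (z - 1) ^ 2 * (z ^ 2 + 4 * z + 1) = 0 := by linear_combination -h
          rcases mul_eq_zero.1 h1 with h2 | h2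
          · rw [pow_eq_zero_iff (by norm_num) |>.1 h2, zero_mul]
          · rw [h2, mul_zero]
        · intro h
          linear_combination -(z - 1) * h
      rw [hs, card_zeros, hd]
      · rw [hd]
        norm_num
      · intro a ha
        have ha' : (a - 1) * (a ^ 2 + 4 * a + 1) = 0 := by simpa using ha
        have hd' : ((X - 1) * (X ^ 2 + 4 * X + 1) : ℂ[X]).derivative.eval a =
            (a ^ 2 + 4 * a + 1) + (a - 1) * (2 * a + 4) := by
          simp [one_add_one_eq_two]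
        rw [hd']
        intro h
        rcases mul_eq_zero.1 ha' with h1 | h1
        · have : a = 1 := sub_eq_zero.1 h1
          rw [this] at h
          norm_num at h
        · have h2 : (a - 1) * (2 * a + 4) = 0 := by linear_combination h - h1
          rcases mul_eq_zero.1 h2 with h3 | h3
          · have : a = 1 := sub_eq_zero.1 h3
            rw [this] at h1
            norm_num at h1
          · have : a = -2 := by linear_combination h3 / 2
            rw [this] at h1
            norm_num at h1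
    · rw [if_neg (by tauto)]
      by_cases h1 : c = -1
      · rw [if_pos h1, h1]
        have hs : {z : ℂ | -1 * z ^ 2 = (z + 1) ^ 2 * (z ^ 2 + 1)} =
            {z : ℂ | z ^ 2 + z + 1 = 0} := by
          ext z
          show -1 * z ^ 2 = (z + 1) ^ 2 * (z ^ 2 + 1) ↔ z ^ 2 + z + 1 = 0
          constructor
          · intro h
            have h2 : (z ^ 2 + z + 1) ^ 2 = 0 := by linear_combination -h
            exact pow_eq_zero_iff (by norm_num) |>.1 h2
          · intro h
            linear_combination -(z ^ 2 + z + 1) * h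
        rw [hs, card_omega]
      · rw [if_neg h1]
        have hd : ((X + 1) ^ 2 * (X ^ 2 + 1) - C c * X ^ 2 : ℂ[X]).natDegree = 4 := by
          compute_degree!
        have hs : {z : ℂ | c * z ^ 2 = (z + 1) ^ 2 * (z ^ 2 + 1)} =
            {z : ℂ | ((X + 1) ^ 2 * (X ^ 2 + 1) - C c * X ^ 2 : ℂ[X]).eval z = 0} := by
          ext z
          show c * z ^ 2 = (z + 1) ^ 2 * (z ^ 2 + 1) ↔
            ((X + 1) ^ 2 * (X ^ 2 + 1) - C c * X ^ 2 : ℂ[X]).eval z = 0
          simp only [eval_sub, eval_mul, eval_pow, eval_add, eval_X, eval_one, eval_C]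
          rw [sub_eq_zero, eq_comm]
        rw [hs, card_zeros, hd]
        · rw [hd]
          norm_num
        · intro a ha
          simp only [eval_sub, eval_mul, eval_pow, eval_add, eval_X, eval_one, eval_C] at ha
          have hd' : ((X + 1) ^ 2 * (X ^ 2 + 1) - C c * X ^ 2 : ℂ[X]).derivative.eval a =
              2 * (a + 1) * (a ^ 2 + 1) + (a + 1) ^ 2 * (2 * a) - c * (2 * a) := by
            simp [derivative_pow]
          rw [hd']
          intro h
          have h2 : 2 * (a + 1) * (a ^ 3 - 1) = 0 := by linear_combination a * h - 2 * ha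
          rcases mul_eq_zero.1 h2 with h3 | h3
          · have : a = -1 := by linear_combination h3 / 2
            rw [this] at ha
            apply h0
            linear_combination -ha
          · have h4 := vanish (z := a) (c := c) (by linear_combination -ha) (sub_eq_zero.1 h3)
            tauto

/-- There are such `D, E` with `deg E = a` and `deg A = 3 a + 2 j`, for all `a ≥ 1` and `j ≥ 0`. -/
theorem exists_good (a j : ℕ) (ha : a ≠ 0) :
    ∃ D E : ℂ[X], Good D E ∧ E.natDegree = a ∧ (D ^ 2 * E).natDegree = 3 * a + 2 * j := by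
  obtain ⟨E, hE⟩ : ∃ E : ℂ[X], E = ∏ i ∈ Finset.range a, (X - C (i : ℂ)) := ⟨_, rfl⟩
  have hEdeg : E.natDegree = a := by
    rw [hE, natDegree_prod_of_monic _ _ (fun i _ => monic_X_sub_C _)]
    simp only [natDegree_X_sub_C, Finset.sum_const, Finset.card_range, smul_eq_mul, mul_one]
  have hEmon : E.Monic := by
    rw [hE]
    exact monic_prod_of_monic _ _ (fun i _ => monic_X_sub_C _)
  have hE0 : E ≠ 0 := hEmon.ne_zero
  have hroot : ∀ z : ℂ, E.eval z = 0 ↔ ∃ i < a, z = (i : ℂ) := by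
    intro z
    rw [hE, eval_prod, Finset.prod_eq_zero_iff]
    simp only [Finset.mem_range, eval_sub, eval_X, eval_C, sub_eq_zero]
  have hsimple : ∀ z : ℂ, E.eval z = 0 → E.derivative.eval z ≠ 0 := by
    intro z hz
    obtain ⟨i, hi, rfl⟩ := (hroot z).1 hz
    have hfac : E = (X - C (i : ℂ)) * ∏ k ∈ (Finset.range a).erase i, (X - C (k : ℂ)) := by
      rw [hE]
      exact (Finset.mul_prod_erase (Finset.range a) (fun k : ℕ => (X - C (k : ℂ) : ℂ[X]))
        (Finset.mem_range.2 hi)).symm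
    rw [hfac, derivative_mul, derivative_X_sub_C, one_mul, eval_add, eval_mul, eval_sub, eval_X,
      eval_C, sub_self, zero_mul, add_zero, eval_prod, Finset.prod_ne_zero_iff]
    intro k hk
    rw [eval_sub, eval_X, eval_C, sub_ne_zero]
    intro h
    exact (Finset.mem_erase.1 hk).1 (Nat.cast_injective h).symm
  obtain ⟨A₀, hA₀⟩ : ∃ A₀ : ℂ[X], A₀ = (E * X ^ j) ^ 2 * E := ⟨_, rfl⟩
  have hA₀deg : A₀.natDegree = 3 * a + 2 * j := by
    rw [hA₀, natDegree_mul (pow_ne_zero 2 (mul_ne_zero hE0 (pow_ne_zero _ X_ne_zero))) hE0,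
      natDegree_pow, natDegree_mul hE0 (pow_ne_zero _ X_ne_zero), natDegree_X_pow, hEdeg]
    ring
  have hder : A₀.derivative ≠ 0 := by
    intro h
    have := derivative_eq_zero.1 h
    omega
  obtain ⟨μ, hμ0, hμ⟩ : ∃ μ : ℂ, μ ≠ 0 ∧ ∀ z, A₀.derivative.eval z = 0 →
      ¬(μ * A₀.eval z = 8 ∨ μ * A₀.eval z = -1) := by
    have hfin : (insert (0 : ℂ) (((fun z => (8 : ℂ) / A₀.eval z) ''
        (A₀.derivative.roots.toFinset : Set ℂ)) ∪ ((fun z => (-1 : ℂ) / A₀.eval z) ''
        (A₀.derivative.roots.toFinset : Set ℂ)))).Finite :=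
      (((Finset.finite_toSet _).image _).union ((Finset.finite_toSet _).image _)).insert _
    obtain ⟨μ, hμ⟩ := hfin.infinite_compl.nonempty
    rw [Set.mem_compl_iff, Set.mem_insert_iff, not_or, Set.mem_union, not_or] at hμ
    have aux : ∀ (z c : ℂ), c ≠ 0 → μ * A₀.eval z = c → c / A₀.eval z = μ := by
      intro z c hc h
      have h0 : A₀.eval z ≠ 0 := by
        intro h0
        rw [h0, mul_zero] at h
        exact hc h.symm
      rw [← h, mul_div_assoc, div_self h0, mul_one]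
    refine ⟨μ, hμ.1, fun z hz h => ?_⟩
    have hmem : z ∈ (A₀.derivative.roots.toFinset : Set ℂ) := by
      rw [Finset.mem_coe, Multiset.mem_toFinset, mem_roots hder]
      exact hz
    rcases h with h | h
    · exact hμ.2.1 ⟨z, hmem, aux z 8 (by norm_num) h⟩
    · exact hμ.2.2 ⟨z, hmem, aux z (-1) (by norm_num) h⟩
  obtain ⟨l, hl⟩ := IsAlgClosed.exists_pow_nat_eq μ (n := 2) (by norm_num)
  have hl0 : l ≠ 0 := by
    rintro rfl
    apply hμ0
    rw [← hl]
    norm_num
  have hA : (C l * (E * X ^ j)) ^ 2 * E = C μ * A₀ := by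
    rw [hA₀, ← hl, C_pow]
    ring
  refine ⟨C l * (E * X ^ j), E, ⟨?_, hsimple, ?_, ?_⟩, hEdeg, ?_⟩
  · rw [hEdeg]
    exact ha
  · intro z
    rw [eval_mul, eval_C, eval_mul, eval_pow, eval_X]
    constructor
    · intro h
      rcases mul_eq_zero.1 h with h1 | h1
      · exact absurd h1 hl0
      · rcases mul_eq_zero.1 h1 with h2 | h2
        · exact h2
        · have hz : z = 0 := by
            by_contra hz
            exact pow_ne_zero j hz h2
          exact (hroot z).2 ⟨0, Nat.pos_of_ne_zero ha, by rw [hz, Nat.cast_zero]⟩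
    · intro h
      rw [h, zero_mul, mul_zero]
  · intro z hz
    rw [hA] at hz ⊢
    rw [eval_mul, eval_C] at hz
    rw [derivative_C_mul, eval_mul, eval_C]
    exact mul_ne_zero hμ0 (fun h => hμ z h hz)
  · rw [hA, natDegree_C_mul hμ0, hA₀deg]

/-- For all `D, E` as in `Good` the curve `Z` is smooth: it has a tangent line at every point, the part
`z ≠ -1` is a graph over a smooth plane curve, and the part `z² ≠ -1` is given by two of the three
equations. The pair of regular functions `x, z⁻² + 2 z` is injective on it and has exactly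
`3 deg A + deg E` common critical points, `A = D² E`. Over `x` there are four points of `Z`, but three if
`A(x) = 0, 8` and two if `A(x) = -1`; `8` and `-1` are taken by `A` at exactly `deg A`, `0` at exactly
`deg E` values of `x`. Such `D, E` exist for all `deg E = a ≥ 1` and `deg A = 3 a + 2 j`. -/
theorem result :
    (∀ D E : ℂ[X], Good D E →
      (∀ P ∈ curve D E, ∃ v₀ : ℂ × ℂ × ℂ, v₀ ≠ 0 ∧ ∀ v, Tangent D E P v ↔ ∃ c : ℂ, v = c • v₀) ∧
      (∀ x z w : ℂ, z ≠ -1 → ((x, z, w) ∈ curve D E ↔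
        (D ^ 2 * E).eval x * z ^ 2 = (z + 1) ^ 2 * (z ^ 2 + 1) ∧
          w = z * (D * E).eval x / (z + 1))) ∧
      (∀ x z : ℂ, z ≠ -1 → (D ^ 2 * E).eval x * z ^ 2 = (z + 1) ^ 2 * (z ^ 2 + 1) →
        (D ^ 2 * E).derivative.eval x * z ^ 2 ≠ 0 ∨
          2 * (D ^ 2 * E).eval x * z - (2 * (z + 1) * (z ^ 2 + 1) + (z + 1) ^ 2 * (2 * z)) ≠ 0) ∧
      (∀ x z w : ℂ, z ≠ 0 → z ^ 2 + 1 ≠ 0 → ((x, z, w) ∈ curve D E ↔
        w ^ 2 = E.eval x * (z ^ 2 + 1) ∧ w * D.eval x * z = (z + 1) * (z ^ 2 + 1))) ∧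
      Set.InjOn (fun P : ℂ × ℂ × ℂ => (P.1, (P.2.1 ^ 2)⁻¹ + 2 * P.2.1)) (curve D E) ∧
      (critical D E).ncard = 3 * (D ^ 2 * E).natDegree + E.natDegree ∧
      (∀ x : ℂ, {P | P ∈ curve D E ∧ P.1 = x}.ncard =
        if (D ^ 2 * E).eval x = 0 ∨ (D ^ 2 * E).eval x = 8 then 3
        else if (D ^ 2 * E).eval x = -1 then 2 else 4) ∧
      {x : ℂ | (D ^ 2 * E).eval x = 8}.ncard = (D ^ 2 * E).natDegree ∧
      {x : ℂ | (D ^ 2 * E).eval x = -1}.ncard = (D ^ 2 * E).natDegree ∧
      {x : ℂ | (D ^ 2 * E).eval x = 0}.ncard = E.natDegree) ∧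
    (∀ a j : ℕ, a ≠ 0 → ∃ D E : ℂ[X], Good D E ∧ E.natDegree = a ∧
      (D ^ 2 * E).natDegree = 3 * a + 2 * j) :=
  ⟨fun _ _ hg => ⟨fun _ h => tangent_line hg h, fun _ _ _ h => chart_x h,
    fun _ _ h h' => smooth_x hg h h', fun _ _ _ h h' => two_equations h h', inj hg,
    critical_card hg, fibre_x hg, card_level hg (Or.inl rfl), card_level hg (Or.inr rfl),
    card_zero hg⟩, exists_good⟩

end Pool.Agent.Results.MP_b05b76_ag.BitangentPullbacks
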