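import Pool.Agent.H58b.CoverBranch

namespace Pool.Agent.Results.MP_b05b76_ag.DualCubicCovers

open Pool.Agent.H58b

/-- For every `N`, the cyclic cover `X_N` of the curve `y ^ 2 = x ^ 3 + 1`, `y ≠ 0` is a smooth
curve, the pair of regular functions `w`, `(2 - x ^ 3) / (2 y)` is injective on it, and it has
exactly `8 N` common critical points. The last two parts give the branching of `X_N`. -/
theorem result (N : ℕ) (hN : N ≠ 0) :
    (∀ P ∈ cvCurve N, cvSmooth N P) ∧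
    Set.InjOn (fun P => (cvU P, cvV P)) (cvCurve N) ∧
    (cvCritical N).ncard = 8 * N ∧
    (∀ x y : ℂ, y ^ 2 = x ^ 3 + 1 → y ≠ 0 →
      (3 * x ^ 2 ≠ 2 * y → {w | (x, y, w) ∈ cvCurve N}.ncard = N) ∧
      (3 * x ^ 2 = 2 * y → {w | (x, y, w) ∈ cvCurve N}.ncard = 1)) ∧
    {p : ℂ × ℂ | p.2 ^ 2 = p.1 ^ 3 + 1 ∧ p.2 ≠ 0 ∧ 3 * p.1 ^ 2 = 2 * p.2}.ncard = 4 :=
  ⟨fun _ h => cv_smooth hN h, cv_inj N, cv_count hN, fun _ _ h hy => cv_fibre hN h hy, cv_branch⟩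

end Pool.Agent.Results.MP_b05b76_ag.DualCubicCovers
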