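import Pool.Agent.H58b.CritThree
import Pool.Agent.H58b.CritFour
import Pool.Agent.H58b.CritFive
import Pool.Agent.H94.CP.StarW

namespace Pool.Agent.Results.MP_b05b76_ag.SquareRootGrowth

open Pool.Agent.H58b

/-- For every `n` at least two, `N(0,n)` is at least `min (n+1) 6` and at least `2 ⌊√n⌋`. -/
theorem result (n : ℕ) (hn : 2 ≤ n) :
    ((max (min (n + 1) 6) (2 * Nat.sqrt n) : ℕ) : ℕ∞) ≤ cpN0 n := by
  have h1 : ((min (n + 1) 6 : ℕ) : ℕ∞) ≤ cpN0 n := by
    rcases Nat.lt_or_ge n 5 with h | h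
    · interval_cases n
      · exact cp_two.le
      · exact cp_three.le
      · exact cp_four.le
    · have h6 : min (n + 1) 6 = 6 := by omega
      rw [h6]
      exact (Pool.Agent.H94.CP.witness_mono cp_five h).le
  have h2 : ((2 * Nat.sqrt n : ℕ) : ℕ∞) ≤ cpN0 n := by
    rcases Nat.lt_or_ge n 4 with h | h
    · have h3 : Nat.sqrt n = 1 := (Nat.eq_sqrt.mpr ⟨by omega, by omega⟩).symm
      rw [h3]
      refine le_trans ?_ (Pool.Agent.H94.CP.witness_mono cp_two hn).le
      exact_mod_cast (by norm_num : 2 * 1 ≤ 3)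
    · refine Pool.Agent.H94.CP.star_main _ n ?_ ?_
      · exact Nat.le_sqrt.mpr (by omega)
      · rw [pow_two]
        exact Nat.sqrt_le n
  rcases le_total (min (n + 1) 6) (2 * Nat.sqrt n) with h | h
  · rw [max_eq_right h]; exact h2
  · rw [max_eq_left h]; exact h1

end Pool.Agent.Results.MP_b05b76_ag.SquareRootGrowth
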