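import Mathlib

/-!
# Pullbacks of the cuspidal cubic along polynomials

Let `D, E` be complex polynomials and `A = D² E`. The curve `Y` in `ℂ³` (coordinates `x, t, w`) given by
`w² = E(x) (t + 1/2)`, `w D(x) = (t - 1) (t + 1/2)`, `w (t - 1) = D(x) E(x)`
is the normalisation of the plane curve `A(x) = (t - 1)² (t + 1/2)`, if all zeros of `A` have odd order at
least three, `E` has simple zeros and `1/2` is not a critical value of `A`. As
`(t - 1)² (t + 1/2) = t³ - (3/2) t² + 1/2` is a linear function on the cuspidal cubic `(t², t³)`, the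
pair `x, t²` is injective on `Y`. It has `deg A + deg E` common critical points.
-/

set_option autoImplicit false

open Polynomial

namespace Pool.Agent.Results.MP_b05b76_ag.TangentPullbacks

/-- The conditions on `D` and `E`: `E` is not constant and has simple zeros, `D` and `E` have the same
zeros, and `A = D² E` does not take the value `1/2` at a zero of its derivative. -/
def Good (D E : ℂ[X]) : Prop :=
  E.natDegree ≠ 0 ∧ (∀ a, E.eval a = 0 → E.derivative.eval a ≠ 0) ∧
  (∀ a, D.eval a = 0 ↔ E.eval a = 0) ∧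
  (∀ a, (D ^ 2 * E).eval a = 1 / 2 → (D ^ 2 * E).derivative.eval a ≠ 0)

/-- The three equations of `Y`. -/
def OnCurve (D E : ℂ[X]) (x t w : ℂ) : Prop :=
  w ^ 2 = E.eval x * (t + 1 / 2) ∧ w * D.eval x = (t - 1) * (t + 1 / 2) ∧
    w * (t - 1) = D.eval x * E.eval x

/-- The set `Y` of the points `(x, t, w)`. -/
def curve (D E : ℂ[X]) : Set (ℂ × ℂ × ℂ) := {P | OnCurve D E P.1 P.2.1 P.2.2}

/-- The vector `v` is killed by the differentials at `P` of the three equations of `Y`. -/
def Tangent (D E : ℂ[X]) (P v : ℂ × ℂ × ℂ) : Prop :=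
  2 * P.2.2 * v.2.2 = E.derivative.eval P.1 * v.1 * (P.2.1 + 1 / 2) + E.eval P.1 * v.2.1 ∧
  v.2.2 * D.eval P.1 + P.2.2 * (D.derivative.eval P.1 * v.1) =
    v.2.1 * (P.2.1 + 1 / 2) + (P.2.1 - 1) * v.2.1 ∧
  v.2.2 * (P.2.1 - 1) + P.2.2 * v.2.1 = (D * E).derivative.eval P.1 * v.1

/-- The points of `Y` at which the differentials of both functions `x` and `t²` vanish on every
tangent vector. -/
def critical (D E : ℂ[X]) : Set (ℂ × ℂ × ℂ) :=
  {P | P ∈ curve D E ∧ ∀ v, Tangent D E P v → v.1 = 0 ∧ 2 * P.2.1 * v.2.1 = 0}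

variable {D E : ℂ[X]} {x t w : ℂ}

theorem evalA : (D ^ 2 * E).eval x = D.eval x ^ 2 * E.eval x := by
  rw [eval_mul, eval_pow]

theorem evalA' : (D ^ 2 * E).derivative.eval x =
    2 * D.eval x * D.derivative.eval x * E.eval x + D.eval x ^ 2 * E.derivative.eval x := by
  rw [derivative_mul, derivative_pow]
  simp only [eval_add, eval_mul, eval_pow, eval_C]
  norm_num

theorem evalDE' : (D * E).derivative.eval x =
    D.derivative.eval x * E.eval x + D.eval x * E.derivative.eval x := by
  rw [derivative_mul]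
  simp only [eval_add, eval_mul]

theorem eq_x (h : OnCurve D E x t w) : (D ^ 2 * E).eval x = (t - 1) ^ 2 * (t + 1 / 2) := by
  obtain ⟨-, h2, h3⟩ := h
  rw [evalA]
  linear_combination (t - 1) * h2 - D.eval x * h3

/-- The part `t ≠ 1` is the plane curve `A(x) = (t - 1)² (t + 1/2)`. -/
theorem chart_x (ht : t ≠ 1) : OnCurve D E x t w ↔
    (D ^ 2 * E).eval x = (t - 1) ^ 2 * (t + 1 / 2) ∧ w = (D * E).eval x / (t - 1) := by
  have h0 : t - 1 ≠ 0 := sub_ne_zero.2 ht
  constructor
  · intro h
    refine ⟨eq_x h, ?_⟩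
    rw [eq_div_iff h0, eval_mul]
    exact h.2.2
  · rintro ⟨h, hw⟩
    have h3 : w * (t - 1) = D.eval x * E.eval x := by
      rw [hw, div_mul_cancel₀ _ h0, eval_mul]
    rw [evalA] at h
    refine ⟨?_, ?_, h3⟩
    · apply mul_right_cancel₀ (pow_ne_zero 2 h0)
      linear_combination (w * (t - 1) + D.eval x * E.eval x) * h3 + E.eval x * h
    · apply mul_right_cancel₀ h0
      linear_combination D.eval x * h3 + h

/-- On the part `t ≠ -1/2` the third equation follows from the other two. -/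
theorem two_equations (ht : t ≠ -1 / 2) : OnCurve D E x t w ↔
    w ^ 2 = E.eval x * (t + 1 / 2) ∧ w * D.eval x = (t - 1) * (t + 1 / 2) := by
  have h0 : t + 1 / 2 ≠ 0 := by
    intro h
    apply ht
    linear_combination h
  constructor
  · intro h
    exact ⟨h.1, h.2.1⟩
  · rintro ⟨h1, h2⟩
    refine ⟨h1, h2, ?_⟩
    apply mul_right_cancel₀ h0
    linear_combination D.eval x * h1 - w * h2

theorem vanish (h : (D ^ 2 * E).eval x = (t - 1) ^ 2 * (t + 1 / 2)) (ht : t = 0) :
    (D ^ 2 * E).eval x = 1 / 2 := by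
  rw [h, ht]
  norm_num

/-- The plane curve is smooth outside `t = 1`: the partial derivatives have no common zero on it. -/
theorem smooth_x (hg : Good D E) (ht : t ≠ 1)
    (h : (D ^ 2 * E).eval x = (t - 1) ^ 2 * (t + 1 / 2)) :
    (D ^ 2 * E).derivative.eval x ≠ 0 ∨ 2 * (t - 1) * (t + 1 / 2) + (t - 1) ^ 2 ≠ 0 := by
  have h0 : t - 1 ≠ 0 := sub_ne_zero.2 ht
  by_cases h1 : t = 0
  · left
    exact hg.2.2.2 x (vanish h h1)
  · right
    have : 2 * (t - 1) * (t + 1 / 2) + (t - 1) ^ 2 = 3 * t * (t - 1) := by ring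
    rw [this]
    exact mul_ne_zero (mul_ne_zero (by norm_num) h1) h0

theorem eq_zero_of_one (hg : Good D E) (h : OnCurve D E x 1 w) :
    E.eval x = 0 ∧ D.eval x = 0 ∧ w = 0 := by
  have e1 := eq_x h
  have hx : E.eval x = 0 := by
    rw [sub_self, zero_pow (by norm_num), zero_mul, evalA] at e1
    rcases mul_eq_zero.1 e1 with h1 | h1
    · exact (hg.2.2.1 x).1 (pow_eq_zero_iff (by norm_num) |>.1 h1)
    · exact h1
  have a := h.1
  rw [hx, zero_mul] at a
  exact ⟨hx, (hg.2.2.1 x).2 hx, by simpa using a⟩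

theorem inj (hg : Good D E) :
    Set.InjOn (fun P : ℂ × ℂ × ℂ => (P.1, P.2.1 ^ 2)) (curve D E) := by
  rintro ⟨x, t, w⟩ h ⟨x', t', w'⟩ h' heq
  simp only [Prod.mk.injEq] at heq
  obtain ⟨rfl, ht2⟩ := heq
  have h : OnCurve D E x t w := h
  have h' : OnCurve D E x t' w' := h'
  have e1 := eq_x h
  have e2 := eq_x h'
  have h3 : t ^ 3 = t' ^ 3 := by
    linear_combination e2 - e1 + (3 / 2) * ht2
  have htt : t = t' := by
    by_cases h0 : t ^ 2 = 0
    · have a : t = 0 := by simpa using h0
      have b : t' = 0 := by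
        have : t' ^ 2 = 0 := by rw [← ht2, h0]
        simpa using this
      rw [a, b]
    · have h4 : t ^ 2 * t = t ^ 2 * t' := by
        calc t ^ 2 * t = t ^ 3 := by ring
          _ = t' ^ 3 := h3
          _ = t' ^ 2 * t' := by ring
          _ = t ^ 2 * t' := by rw [ht2]
      exact mul_left_cancel₀ h0 h4
  subst htt
  have hww : w = w' := by
    by_cases h1 : t = 1
    · subst h1
      rw [(eq_zero_of_one hg h).2.2, (eq_zero_of_one hg h').2.2]
    · rw [((chart_x h1).1 h).2, ((chart_x h1).1 h').2]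
  rw [hww]

/-- A tangent vector at a point with `t ≠ 1`. -/
noncomputable def vec (D E : ℂ[X]) (x t w : ℂ) : ℂ × ℂ × ℂ :=
  (3 * t * (t - 1), (D ^ 2 * E).derivative.eval x,
    ((D * E).derivative.eval x * (3 * t * (t - 1)) - w * (D ^ 2 * E).derivative.eval x) / (t - 1))

theorem tangent_rel (h : OnCurve D E x t w) {v : ℂ × ℂ × ℂ}
    (hv : Tangent D E (x, t, w) v) :
    (D ^ 2 * E).derivative.eval x * v.1 = 3 * t * (t - 1) * v.2.1 := by
  obtain ⟨h1, h2, h3⟩ := h
  obtain ⟨v1, v2, v3⟩ := hv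
  rw [evalDE'] at v3
  rw [evalA']
  simp only at v2 v3
  linear_combination (t - 1) * v2 - D.eval x * v3 - D.derivative.eval x * v.1 * h3 +
    v.2.1 * h2

theorem vec_tangent (ht : t ≠ 1) (h : OnCurve D E x t w) :
    Tangent D E (x, t, w) (vec D E x t w) := by
  have h0 : t - 1 ≠ 0 := sub_ne_zero.2 ht
  have hx := eq_x h
  obtain ⟨h1, h2, h3⟩ := h
  obtain ⟨c, hc⟩ : ∃ c, c = ((D * E).derivative.eval x * (3 * t * (t - 1)) -
      w * (D ^ 2 * E).derivative.eval x) / (t - 1) := ⟨_, rfl⟩
  have hc' : c * (t - 1) = (D * E).derivative.eval x * (3 * t * (t - 1)) -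
      w * (D ^ 2 * E).derivative.eval x := by
    rw [hc, div_mul_cancel₀ _ h0]
  have a1 := evalA' (D := D) (E := E) (x := x)
  have a2 := evalDE' (D := D) (E := E) (x := x)
  unfold vec Tangent
  simp only [← hc]
  rw [a1, a2] at hc' ⊢
  rw [evalA] at hx
  refine ⟨?_, ?_, ?_⟩
  · apply mul_right_cancel₀ (pow_ne_zero 2 h0)
    linear_combination 2 * c * (t - 1) * h3 + 2 * (D.eval x * E.eval x) * hc' +
      2 * (2 * D.eval x * D.derivative.eval x * E.eval x + D.eval x ^ 2 * E.derivative.eval x) *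
        w * h3 -
      2 * (2 * D.eval x * D.derivative.eval x * E.eval x + D.eval x ^ 2 * E.derivative.eval x) *
        (t - 1) * h1 + E.derivative.eval x * (3 * t * (t - 1)) * hx
  · apply mul_right_cancel₀ h0
    linear_combination D.eval x * hc' -
      (2 * D.eval x * D.derivative.eval x * E.eval x + D.eval x ^ 2 * E.derivative.eval x) * h2 +
      D.derivative.eval x * (3 * t * (t - 1)) * h3
  · linear_combination hc'

theorem tangent_one (hg : Good D E) (hE : E.eval x = 0) (v : ℂ × ℂ × ℂ) :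
    Tangent D E (x, 1, 0) v ↔ v.1 = 0 ∧ v.2.1 = 0 := by
  have hD : D.eval x = 0 := (hg.2.2.1 x).2 hE
  have hE' := hg.2.1 x hE
  unfold Tangent
  rw [evalDE']
  simp only [hE, hD, mul_zero, zero_mul, sub_self, add_zero]
  constructor
  · rintro ⟨h1, h2, -⟩
    constructor
    · have h3 : E.derivative.eval x * v.1 = 0 := by linear_combination (-2 / 3) * h1
      exact (mul_eq_zero.1 h3).resolve_left hE'
    · linear_combination (-2 / 3) * h2
  · rintro ⟨h1, h2⟩
    rw [h1, h2]
    norm_num

/-- At every point of `Y` the tangent vectors form a line. -/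
theorem tangent_line (hg : Good D E) {P : ℂ × ℂ × ℂ} (hP : P ∈ curve D E) :
    ∃ v₀ : ℂ × ℂ × ℂ, v₀ ≠ 0 ∧ ∀ v, Tangent D E P v ↔ ∃ c : ℂ, v = c • v₀ := by
  obtain ⟨x, t, w⟩ := P
  have h : OnCurve D E x t w := hP
  by_cases ht : t = 1
  · subst ht
    obtain ⟨hE, -, rfl⟩ := eq_zero_of_one hg h
    refine ⟨(0, 0, 1), by simp, fun v => ?_⟩
    rw [tangent_one hg hE]
    constructor
    · rintro ⟨h1, h2⟩
      exact ⟨v.2.2, by ext <;> simp [h1, h2]⟩
    · rintro ⟨c, rfl⟩
      simp
  · have h0 : t - 1 ≠ 0 := sub_ne_zero.2 ht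
    have hv0 := vec_tangent ht h
    have hne : 3 * t * (t - 1) ≠ 0 ∨ (D ^ 2 * E).derivative.eval x ≠ 0 := by
      by_cases h1 : t = 0
      · right
        exact hg.2.2.2 x (vanish (eq_x h) h1)
      · left
        exact mul_ne_zero (mul_ne_zero (by norm_num) h1) h0
    refine ⟨vec D E x t w, ?_, fun v => ⟨fun hv => ?_, ?_⟩⟩
    · intro h1
      have h2 : 3 * t * (t - 1) = 0 := congrArg Prod.fst h1
      have h3 : (D ^ 2 * E).derivative.eval x = 0 := congrArg (fun p => p.2.1) h1
      rcases hne with h | h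
      · exact h h2
      · exact h h3
    · have hr := tangent_rel h hv
      obtain ⟨c, hc1, hc2⟩ : ∃ c : ℂ, v.1 = c * (3 * t * (t - 1)) ∧
          v.2.1 = c * (D ^ 2 * E).derivative.eval x := by
        rcases hne with h1 | h1
        · refine ⟨v.1 / (3 * t * (t - 1)), (div_mul_cancel₀ _ h1).symm, ?_⟩
          rw [div_mul_eq_mul_div, eq_div_iff h1]
          linear_combination -hr
        · refine ⟨v.2.1 / (D ^ 2 * E).derivative.eval x, ?_, (div_mul_cancel₀ _ h1).symm⟩
          rw [div_mul_eq_mul_div, eq_div_iff h1]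
          linear_combination hr
      refine ⟨c, ?_⟩
      have h3 := hv.2.2
      have h4 := hv0.2.2
      ext
      · exact hc1
      · exact hc2
      · show v.2.2 = c * (vec D E x t w).2.2
        apply mul_right_cancel₀ h0
        simp only [vec] at h4 ⊢
        rw [hc1, hc2] at h3
        linear_combination h3 - c * h4
    · rintro ⟨c, rfl⟩
      obtain ⟨h1, h2, h3⟩ := hv0
      refine ⟨?_, ?_, ?_⟩
      · simp only [Prod.smul_fst, Prod.smul_snd, smul_eq_mul]
        linear_combination c * h1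
      · simp only [Prod.smul_fst, Prod.smul_snd, smul_eq_mul]
        linear_combination c * h2
      · simp only [Prod.smul_fst, Prod.smul_snd, smul_eq_mul]
        linear_combination c * h3

theorem card_zeros {p : ℂ[X]} (hp : p.natDegree ≠ 0)
    (h : ∀ a, p.eval a = 0 → p.derivative.eval a ≠ 0) :
    {z : ℂ | p.eval z = 0}.ncard = p.natDegree := by
  have hp0 : p ≠ 0 := by
    rintro rfl
    exact hp natDegree_zero
  have hnd : p.roots.Nodup := by
    rw [Multiset.nodup_iff_count_le_one]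
    intro a
    rw [count_roots]
    by_contra hlt
    have h1 := (one_lt_rootMultiplicity_iff_isRoot hp0).1 (not_le.1 hlt)
    exact h a h1.1 h1.2
  have hset : {z : ℂ | p.eval z = 0} = (p.roots.toFinset : Set ℂ) := by
    ext z
    rw [Finset.mem_coe, Multiset.mem_toFinset, mem_roots hp0]
    rfl
  rw [hset, Set.ncard_coe_finset, Multiset.toFinset_card_of_nodup hnd]
  exact IsAlgClosed.card_roots_eq_natDegree

/-- The points with `t = 0`. -/
theorem card_t_zero (hg : Good D E) :
    {P | P ∈ curve D E ∧ P.2.1 = 0}.ncard = (D ^ 2 * E).natDegree := by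
  have hE0 : E ≠ 0 := by
    rintro rfl
    exact hg.1 natDegree_zero
  have hD0 : D ≠ 0 := by
    rintro rfl
    apply hE0
    apply Polynomial.funext
    intro a
    rw [eval_zero]
    exact (hg.2.2.1 a).1 eval_zero
  have hdeg : (D ^ 2 * E).natDegree ≠ 0 := by
    rw [natDegree_mul (pow_ne_zero 2 hD0) hE0]
    have := hg.1
    omega
  have hset : {P | P ∈ curve D E ∧ P.2.1 = 0} =
      (fun x : ℂ => (x, (0 : ℂ), (D * E).eval x / (0 - 1))) ''
        {z : ℂ | (D ^ 2 * E - C (1 / 2)).eval z = 0} := by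
    ext ⟨x, t, w⟩
    constructor
    · rintro ⟨h, ht⟩
      have ht : t = 0 := ht
      subst ht
      have h : OnCurve D E x 0 w := h
      obtain ⟨e1, e2⟩ := (chart_x zero_ne_one).1 h
      refine ⟨x, ?_, by rw [e2]⟩
      show (D ^ 2 * E - C (1 / 2)).eval x = 0
      rw [eval_sub, eval_C, e1]
      norm_num
    · rintro ⟨z, hz, he⟩
      simp only [Prod.mk.injEq] at he
      obtain ⟨rfl, rfl, rfl⟩ := he
      have hz : (D ^ 2 * E - C (1 / 2)).eval z = 0 := hz
      rw [eval_sub, eval_C, sub_eq_zero] at hz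
      refine ⟨(chart_x zero_ne_one).2 ⟨?_, rfl⟩, rfl⟩
      rw [hz]
      norm_num
  rw [hset, Set.ncard_image_of_injective]
  · rw [card_zeros, natDegree_sub_C]
    · rw [natDegree_sub_C]
      exact hdeg
    · intro a ha
      rw [eval_sub, eval_C, sub_eq_zero] at ha
      rw [derivative_sub, derivative_C, sub_zero]
      exact hg.2.2.2 a ha
  · intro a b hab
    exact congrArg Prod.fst hab

/-- The points with `t = 1`. -/
theorem card_t_one (hg : Good D E) :
    {P | P ∈ curve D E ∧ P.2.1 = 1}.ncard = E.natDegree := by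
  have hset : {P | P ∈ curve D E ∧ P.2.1 = 1} =
      (fun x : ℂ => (x, (1 : ℂ), (0 : ℂ))) '' {z : ℂ | E.eval z = 0} := by
    ext ⟨x, t, w⟩
    constructor
    · rintro ⟨h, ht⟩
      have ht : t = 1 := ht
      subst ht
      obtain ⟨e1, -, rfl⟩ := eq_zero_of_one hg (show OnCurve D E x 1 w from h)
      exact ⟨x, e1, rfl⟩
    · rintro ⟨z, hz, he⟩
      simp only [Prod.mk.injEq] at he
      obtain ⟨rfl, rfl, rfl⟩ := he
      have hz : E.eval z = 0 := hz
      have hD : D.eval z = 0 := (hg.2.2.1 z).2 hz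
      refine ⟨?_, rfl⟩
      show OnCurve D E z 1 0
      simp [OnCurve, hz, hD]
  rw [hset, Set.ncard_image_of_injective]
  · exact card_zeros hg.1 hg.2.1
  · intro a b hab
    exact congrArg Prod.fst hab

theorem critical_eq (hg : Good D E) :
    critical D E = {P | P ∈ curve D E ∧ P.2.1 = 0} ∪ {P | P ∈ curve D E ∧ P.2.1 = 1} := by
  ext ⟨x, t, w⟩
  constructor
  · rintro ⟨h, hc⟩
    have h : OnCurve D E x t w := h
    by_cases ht : t = 1
    · exact Or.inr ⟨h, ht⟩
    · left
      refine ⟨h, ?_⟩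
      have h1 := (hc _ (vec_tangent ht h)).1
      have h0 : t - 1 ≠ 0 := sub_ne_zero.2 ht
      have h2 : 3 * t * (t - 1) = 0 := h1
      have h3 : 3 * t = 0 := (mul_eq_zero.1 h2).resolve_right h0
      exact (mul_eq_zero.1 h3).resolve_left (by norm_num)
  · rintro (⟨h, ht⟩ | ⟨h, ht⟩)
    · have ht : t = 0 := ht
      subst ht
      have h : OnCurve D E x 0 w := h
      refine ⟨h, fun v hv => ?_⟩
      have hr := tangent_rel h hv
      have hx := hg.2.2.2 x (vanish (eq_x h) rfl)
      constructor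
      · have h1 : (D ^ 2 * E).derivative.eval x * v.1 = 0 := by
          rw [hr]
          ring
        exact (mul_eq_zero.1 h1).resolve_left hx
      · simp
    · have ht : t = 1 := ht
      subst ht
      have h : OnCurve D E x 1 w := h
      refine ⟨h, fun v hv => ?_⟩
      obtain ⟨hE, -, rfl⟩ := eq_zero_of_one hg h
      obtain ⟨h1, h2⟩ := (tangent_one hg hE v).1 hv
      rw [h1, h2]
      simp

theorem critical_card (hg : Good D E) :
    (critical D E).ncard = (D ^ 2 * E).natDegree + E.natDegree := by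
  have hf0 : {P | P ∈ curve D E ∧ P.2.1 = 0}.Finite := by
    apply Set.finite_of_ncard_ne_zero
    rw [card_t_zero hg]
    have hE0 : E ≠ 0 := by
      rintro rfl
      exact hg.1 natDegree_zero
    have hD0 : D ≠ 0 := by
      rintro rfl
      apply hE0
      apply Polynomial.funext
      intro a
      rw [eval_zero]
      exact (hg.2.2.1 a).1 eval_zero
    rw [natDegree_mul (pow_ne_zero 2 hD0) hE0]
    have := hg.1
    omega
  have hf1 : {P | P ∈ curve D E ∧ P.2.1 = 1}.Finite := by
    apply Set.finite_of_ncard_ne_zero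
    rw [card_t_one hg]
    exact hg.1
  rw [critical_eq hg, Set.ncard_union_eq _ hf0 hf1, card_t_zero hg, card_t_one hg]
  rw [Set.disjoint_left]
  rintro P ⟨-, h⟩ ⟨-, h'⟩
  rw [h] at h'
  exact zero_ne_one h'

theorem ne_zero (hg : Good D E) : E ≠ 0 ∧ D ≠ 0 ∧ D ^ 2 * E ≠ 0 := by
  have hE0 : E ≠ 0 := by
    rintro rfl
    exact hg.1 natDegree_zero
  have hD0 : D ≠ 0 := by
    rintro rfl
    apply hE0
    apply Polynomial.funext
    intro a
    rw [eval_zero]
    exact (hg.2.2.1 a).1 eval_zero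
  exact ⟨hE0, hD0, mul_ne_zero (pow_ne_zero 2 hD0) hE0⟩

/-- Over `x` with `A(x) ≠ 0, 1/2` there are three points of `Y`, over the other `x` two. -/
theorem fibre_x (hg : Good D E) (x : ℂ) :
    {P | P ∈ curve D E ∧ P.1 = x}.ncard =
      if (D ^ 2 * E).eval x = 0 ∨ (D ^ 2 * E).eval x = 1 / 2 then 2 else 3 := by
  by_cases h0 : (D ^ 2 * E).eval x = 0
  · rw [if_pos (Or.inl h0)]
    have hE : E.eval x = 0 := by
      rw [evalA] at h0
      rcases mul_eq_zero.1 h0 with h1 | h1
      · exact (hg.2.2.1 x).1 (pow_eq_zero_iff (by norm_num) |>.1 h1)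
      · exact h1
    have hD : D.eval x = 0 := (hg.2.2.1 x).2 hE
    have hset : {P | P ∈ curve D E ∧ P.1 = x} = {(x, (1 : ℂ), (0 : ℂ)), (x, -1 / 2, 0)} := by
      ext ⟨y, t, w⟩
      constructor
      · rintro ⟨h, rfl⟩
        have h : OnCurve D E y t w := h
        have e1 := eq_x h
        have hw : w = 0 := by
          have := h.1
          rw [hE, zero_mul] at this
          simpa using this
        rw [h0] at e1
        rcases mul_eq_zero.1 e1.symm with h1 | h1
        · left
          have h2 : t - 1 = 0 := pow_eq_zero_iff (by norm_num) |>.1 h1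
          rw [hw, sub_eq_zero.1 h2]
        · right
          have h2 : t = -1 / 2 := by linear_combination h1
          rw [Set.mem_singleton_iff, hw, h2]
      · rintro (h | h)
        · simp only [Prod.mk.injEq] at h
          obtain ⟨rfl, rfl, rfl⟩ := h
          refine ⟨?_, rfl⟩
          show OnCurve D E y 1 0
          simp [OnCurve, hE, hD]
        · simp only [Set.mem_singleton_iff, Prod.mk.injEq] at h
          obtain ⟨rfl, rfl, rfl⟩ := h
          refine ⟨?_, rfl⟩
          show OnCurve D E y (-1 / 2) 0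
          refine ⟨?_, ?_, ?_⟩
          · rw [hE]; norm_num
          · rw [hD]; norm_num
          · rw [hE, hD]; norm_num
    rw [hset, Set.ncard_pair]
    intro h
    simp only [Prod.mk.injEq] at h
    have := h.2.1
    norm_num at this
  · have ht1 : ∀ t : ℂ, (D ^ 2 * E).eval x = (t - 1) ^ 2 * (t + 1 / 2) → t ≠ 1 := by
      rintro t h rfl
      apply h0
      rw [h]
      norm_num
    have hset : {P | P ∈ curve D E ∧ P.1 = x} =
        (fun t : ℂ => (x, t, (D * E).eval x / (t - 1))) ''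
          {t : ℂ | (D ^ 2 * E).eval x = (t - 1) ^ 2 * (t + 1 / 2)} := by
      ext ⟨y, t, w⟩
      constructor
      · rintro ⟨h, rfl⟩
        have h : OnCurve D E y t w := h
        have e1 := eq_x h
        exact ⟨t, e1, by rw [((chart_x (ht1 t e1)).1 h).2]⟩
      · rintro ⟨z, hz, he⟩
        simp only [Prod.mk.injEq] at he
        obtain ⟨rfl, rfl, rfl⟩ := he
        exact ⟨(chart_x (ht1 z hz)).2 ⟨hz, rfl⟩, rfl⟩
    have hinj : Function.Injective (fun t : ℂ => (x, t, (D * E).eval x / (t - 1))) := by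
      intro a b hab
      exact congrArg (fun p : ℂ × ℂ × ℂ => p.2.1) hab
    rw [hset, Set.ncard_image_of_injective _ hinj]
    by_cases h1 : (D ^ 2 * E).eval x = 1 / 2
    · rw [if_pos (Or.inr h1), h1]
      have : {t : ℂ | (1 / 2 : ℂ) = (t - 1) ^ 2 * (t + 1 / 2)} = {0, 3 / 2} := by
        ext t
        constructor
        · intro h
          have h : (1 / 2 : ℂ) = (t - 1) ^ 2 * (t + 1 / 2) := h
          have h2 : t ^ 2 * (t - 3 / 2) = 0 := by linear_combination -h
          rcases mul_eq_zero.1 h2 with h3 | h3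
          · left
            exact pow_eq_zero_iff (by norm_num) |>.1 h3
          · right
            exact sub_eq_zero.1 h3
        · rintro (rfl | rfl)
          · show (1 / 2 : ℂ) = (0 - 1) ^ 2 * (0 + 1 / 2)
            norm_num
          · show (1 / 2 : ℂ) = (3 / 2 - 1) ^ 2 * (3 / 2 + 1 / 2)
            norm_num
      rw [this, Set.ncard_pair]
      norm_num
    · rw [if_neg (by tauto)]
      obtain ⟨c, hc⟩ : ∃ c, c = (D ^ 2 * E).eval x := ⟨_, rfl⟩
      rw [← hc] at h0 h1 ⊢
      have hp : ((X - C 1) ^ 2 * (X + C (1 / 2)) - C c : ℂ[X]).natDegree = 3 := by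
        rw [natDegree_sub_C, natDegree_mul (pow_ne_zero 2 (X_sub_C_ne_zero 1))
          (X_add_C_ne_zero _), natDegree_pow, natDegree_X_sub_C, natDegree_X_add_C]
      have hz : {t : ℂ | c = (t - 1) ^ 2 * (t + 1 / 2)} =
          {t : ℂ | ((X - C 1) ^ 2 * (X + C (1 / 2)) - C c : ℂ[X]).eval t = 0} := by
        ext t
        simp only [Set.mem_ofPred_eq, eval_sub, eval_mul, eval_pow, eval_add, eval_X, eval_C]
        rw [sub_eq_zero, eq_comm]
      rw [hz, card_zeros, hp]
      · rw [hp]
        norm_num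
      · intro a ha
        simp only [eval_sub, eval_mul, eval_pow, eval_add, eval_X, eval_C] at ha
        have hd : ((X - C 1) ^ 2 * (X + C (1 / 2)) - C c : ℂ[X]).derivative.eval a =
            3 * a * (a - 1) := by
          simp only [derivative_sub, derivative_mul, derivative_pow, derivative_add, derivative_X,
            derivative_C, eval_sub, eval_mul, eval_pow, eval_add, eval_X, eval_C, eval_one,
            eval_zero]
          norm_num
          ring
        rw [hd]
        intro h2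
        rcases mul_eq_zero.1 h2 with h3 | h3
        · have h4 : a = 0 := (mul_eq_zero.1 h3).resolve_left (by norm_num)
          apply h1
          rw [h4] at ha
          linear_combination -ha
        · have h4 : a = 1 := sub_eq_zero.1 h3
          apply h0
          rw [h4] at ha
          linear_combination -ha

/-- There are such `D, E` with `deg E = a` and `deg A = 3 a + 2 j`, for all `a ≥ 1` and `j ≥ 0`. -/
theorem exists_good (a j : ℕ) (ha : a ≠ 0) :
    ∃ D E : ℂ[X], Good D E ∧ E.natDegree = a ∧ (D ^ 2 * E).natDegree = 3 * a + 2 * j := by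
  obtain ⟨E, hE⟩ : ∃ E : ℂ[X], E = ∏ i ∈ Finset.range a, (X - C (i : ℂ)) := ⟨_, rfl⟩
  have hEdeg : E.natDegree = a := by
    rw [hE, natDegree_prod_of_monic _ _ (fun i _ => monic_X_sub_C _)]
    simp only [natDegree_X_sub_C, Finset.sum_const, Finset.card_range, smul_eq_mul, mul_one]
  have hEmon : E.Monic := by
    rw [hE]
    exact monic_prod_of_monic _ _ (fun i _ => monic_X_sub_C _)
  have hE0 : E ≠ 0 := hEmon.ne_zero
  have hroot : ∀ z : ℂ, E.eval z = 0 ↔ ∃ i < a, z = (i : ℂ) := by
    intro z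
    rw [hE, eval_prod, Finset.prod_eq_zero_iff]
    simp only [Finset.mem_range, eval_sub, eval_X, eval_C, sub_eq_zero]
  have hsimple : ∀ z : ℂ, E.eval z = 0 → E.derivative.eval z ≠ 0 := by
    intro z hz
    obtain ⟨i, hi, rfl⟩ := (hroot z).1 hz
    have hfac : E = (X - C (i : ℂ)) * ∏ k ∈ (Finset.range a).erase i, (X - C (k : ℂ)) := by
      rw [hE]
      exact (Finset.mul_prod_erase (Finset.range a) (fun k : ℕ => (X - C (k : ℂ) : ℂ[X]))
        (Finset.mem_range.2 hi)).symm
    rw [hfac, derivative_mul, derivative_X_sub_C, one_mul, eval_add, eval_mul, eval_sub, eval_X,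
      eval_C, sub_self, zero_mul, add_zero, eval_prod, Finset.prod_ne_zero_iff]
    intro k hk
    rw [eval_sub, eval_X, eval_C, sub_ne_zero]
    intro h
    exact (Finset.mem_erase.1 hk).1 (Nat.cast_injective h).symm
  obtain ⟨A₀, hA₀⟩ : ∃ A₀ : ℂ[X], A₀ = (E * X ^ j) ^ 2 * E := ⟨_, rfl⟩
  have hA₀deg : A₀.natDegree = 3 * a + 2 * j := by
    rw [hA₀, natDegree_mul (pow_ne_zero 2 (mul_ne_zero hE0 (pow_ne_zero _ X_ne_zero))) hE0,
      natDegree_pow, natDegree_mul hE0 (pow_ne_zero _ X_ne_zero), natDegree_X_pow, hEdeg]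
    ring
  have hder : A₀.derivative ≠ 0 := by
    intro h
    have := derivative_eq_zero.1 h
    omega
  obtain ⟨μ, hμ0, hμ⟩ : ∃ μ : ℂ, μ ≠ 0 ∧ ∀ z, A₀.derivative.eval z = 0 → μ * A₀.eval z ≠ 1 / 2 := by
    have hfin : (insert (0 : ℂ) ((fun z => (1 / 2 : ℂ) / A₀.eval z) ''
        (A₀.derivative.roots.toFinset : Set ℂ))).Finite :=
      ((Finset.finite_toSet _).image _).insert _
    obtain ⟨μ, hμ⟩ := hfin.infinite_compl.nonempty
    rw [Set.mem_compl_iff, Set.mem_insert_iff, not_or] at hμ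
    refine ⟨μ, hμ.1, fun z hz h => hμ.2 ⟨z, ?_, ?_⟩⟩
    · rw [Finset.mem_coe, Multiset.mem_toFinset, mem_roots hder]
      exact hz
    · have h0 : A₀.eval z ≠ 0 := by
        intro h0
        rw [h0, mul_zero] at h
        norm_num at h
      show (1 / 2 : ℂ) / A₀.eval z = μ
      rw [← h, mul_div_assoc, div_self h0, mul_one]
  obtain ⟨l, hl⟩ := IsAlgClosed.exists_pow_nat_eq μ (n := 2) (by norm_num)
  have hl0 : l ≠ 0 := by
    rintro rfl
    apply hμ0
    rw [← hl]
    norm_num
  have hA : (C l * (E * X ^ j)) ^ 2 * E = C μ * A₀ := by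
    rw [hA₀, ← hl, C_pow]
    ring
  refine ⟨C l * (E * X ^ j), E, ⟨?_, hsimple, ?_, ?_⟩, hEdeg, ?_⟩
  · rw [hEdeg]
    exact ha
  · intro z
    rw [eval_mul, eval_C, eval_mul, eval_pow, eval_X]
    constructor
    · intro h
      rcases mul_eq_zero.1 h with h1 | h1
      · exact absurd h1 hl0
      · rcases mul_eq_zero.1 h1 with h2 | h2
        · exact h2
        · have hz : z = 0 := by
            by_contra hz
            exact pow_ne_zero j hz h2
          exact (hroot z).2 ⟨0, Nat.pos_of_ne_zero ha, by rw [hz, Nat.cast_zero]⟩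
    · intro h
      rw [h, zero_mul, mul_zero]
  · intro z hz
    rw [hA] at hz ⊢
    rw [eval_mul, eval_C] at hz
    rw [derivative_C_mul, eval_mul, eval_C]
    exact mul_ne_zero hμ0 (fun h => hμ z h hz)
  · rw [hA, natDegree_C_mul hμ0, hA₀deg]

/-- For all `D, E` as in `Good` the curve `Y` is smooth: it has a tangent line at every point, the part
`t ≠ 1` is a graph over a smooth plane curve, and the part `t ≠ -1/2` is given by two of the three
equations. The pair of regular functions `x, t²` is injective on it and has exactly `deg A + deg E` common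
critical points, `A = D² E`. Over `x` with `A(x) ≠ 0, 1/2` there are three points of `Y`, over the other
`x` two, and `1/2`, `0` are taken by `A` at exactly `deg A`, `deg E` values of `x`. Such `D, E` exist for
all `deg E = a ≥ 1` and `deg A = 3 a + 2 j`. -/
theorem result :
    (∀ D E : ℂ[X], Good D E →
      (∀ P ∈ curve D E, ∃ v₀ : ℂ × ℂ × ℂ, v₀ ≠ 0 ∧ ∀ v, Tangent D E P v ↔ ∃ c : ℂ, v = c • v₀) ∧
      (∀ x t w : ℂ, t ≠ 1 → ((x, t, w) ∈ curve D E ↔
        (D ^ 2 * E).eval x = (t - 1) ^ 2 * (t + 1 / 2) ∧ w = (D * E).eval x / (t - 1))) ∧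
      (∀ x t : ℂ, t ≠ 1 → (D ^ 2 * E).eval x = (t - 1) ^ 2 * (t + 1 / 2) →
        (D ^ 2 * E).derivative.eval x ≠ 0 ∨ 2 * (t - 1) * (t + 1 / 2) + (t - 1) ^ 2 ≠ 0) ∧
      (∀ x t w : ℂ, t ≠ -1 / 2 → ((x, t, w) ∈ curve D E ↔
        w ^ 2 = E.eval x * (t + 1 / 2) ∧ w * D.eval x = (t - 1) * (t + 1 / 2))) ∧
      Set.InjOn (fun P : ℂ × ℂ × ℂ => (P.1, P.2.1 ^ 2)) (curve D E) ∧
      (critical D E).ncard = (D ^ 2 * E).natDegree + E.natDegree ∧
      (∀ x : ℂ, {P | P ∈ curve D E ∧ P.1 = x}.ncard =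
        if (D ^ 2 * E).eval x = 0 ∨ (D ^ 2 * E).eval x = 1 / 2 then 2 else 3) ∧
      {x : ℂ | (D ^ 2 * E).eval x = 1 / 2}.ncard = (D ^ 2 * E).natDegree ∧
      {x : ℂ | (D ^ 2 * E).eval x = 0}.ncard = E.natDegree) ∧
    (∀ a j : ℕ, a ≠ 0 → ∃ D E : ℂ[X], Good D E ∧ E.natDegree = a ∧
      (D ^ 2 * E).natDegree = 3 * a + 2 * j) := by
  refine ⟨fun D E hg => ⟨fun _ h => tangent_line hg h, fun _ _ _ h => chart_x h,
    fun _ _ h h' => smooth_x hg h h', fun _ _ _ h => two_equations h, inj hg, critical_card hg,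
    fibre_x hg, ?_, ?_⟩, exists_good⟩
  · have hdeg : (D ^ 2 * E).natDegree ≠ 0 := by
      rw [natDegree_mul (pow_ne_zero 2 (ne_zero hg).2.1) (ne_zero hg).1]
      have := hg.1
      omega
    have hset : {x : ℂ | (D ^ 2 * E).eval x = 1 / 2} =
        {x : ℂ | (D ^ 2 * E - C (1 / 2)).eval x = 0} := by
      ext z
      show (D ^ 2 * E).eval z = 1 / 2 ↔ (D ^ 2 * E - C (1 / 2)).eval z = 0
      rw [eval_sub, eval_C, sub_eq_zero]
    rw [hset, card_zeros, natDegree_sub_C]
    · rw [natDegree_sub_C]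
      exact hdeg
    · intro a ha
      rw [eval_sub, eval_C, sub_eq_zero] at ha
      rw [derivative_sub, derivative_C, sub_zero]
      exact hg.2.2.2 a ha
  · have hset : {x : ℂ | (D ^ 2 * E).eval x = 0} = {x : ℂ | E.eval x = 0} := by
      ext z
      show (D ^ 2 * E).eval z = 0 ↔ E.eval z = 0
      rw [evalA]
      constructor
      · intro h
        rcases mul_eq_zero.1 h with h1 | h1
        · exact (hg.2.2.1 z).1 (pow_eq_zero_iff (by norm_num) |>.1 h1)
        · exact h1
      · intro h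
        rw [h, mul_zero]
    rw [hset]
    exact card_zeros hg.1 hg.2.1

end Pool.Agent.Results.MP_b05b76_ag.TangentPullbacks
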